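import Pool.Agent.Lib.MP_43d240_ag.FZ.Iface

/-!
PROJECT PI, chapter F2b, module DIM: the chart algebra has dimension three.
General lemmas: the Krull dimension of an integral extension, the Krull dimension of a finitely
generated domain over a field is its transcendence degree.
-/

namespace Pool.Agent.PI.FZ.H91

open MvPolynomial

/-- Integral extensions preserve the Krull dimension. -/
theorem krullDim_integral (R S : Type*) [CommRing R] [CommRing S] [Algebra R S]
    [Algebra.IsIntegral R S] (hinj : Function.Injective (algebraMap R S)) :
    ringKrullDim S = ringKrullDim R := by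
  apply le_antisymm
  · apply Order.krullDim_le_of_strictMono (PrimeSpectrum.comap (algebraMap R S))
    intro P Q hPQ
    have h : P.asIdeal < Q.asIdeal := hPQ
    exact Ideal.IsIntegral.comap_lt_comap h
  · apply iSup_le
    intro l
    obtain ⟨P, -, hP, hP2⟩ := Ideal.exists_ideal_over_prime_of_isIntegral
      (RelSeries.head l).asIdeal (⊥ : Ideal S) (by
        rw [← RingHom.ker_eq_comap_bot, (RingHom.injective_iff_ker_eq_bot _).1 hinj]
        exact bot_le)
    haveI : P.LiesOver (RelSeries.head l).asIdeal := ⟨hP2.symm⟩
    obtain ⟨L, hL, -⟩ := Ideal.exists_ltSeries_of_hasGoingUp l P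
    rw [← hL]
    exact le_iSup (fun p : LTSeries (PrimeSpectrum S) => (p.length : WithBot ℕ∞)) L

/-- The dimension of a finitely generated domain is the transcendence degree. -/
theorem krullDim_eq_trdeg (k A : Type) [Field k] [CommRing A] [IsDomain A] [Algebra k A]
    [Algebra.FiniteType k A] (n : ℕ) (h : Algebra.trdeg k A = n) : ringKrullDim A = n := by
  obtain ⟨s, g, hinj, hint⟩ := exists_integral_inj_algHom_of_fg k A
  letI : Algebra (MvPolynomial (Fin s) k) A := g.toRingHom.toAlgebra
  haveI : IsScalarTower k (MvPolynomial (Fin s) k) A := IsScalarTower.of_algebraMap_eq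
    (fun c => (g.commutes c).symm)
  haveI : Algebra.IsIntegral (MvPolynomial (Fin s) k) A := ⟨hint⟩
  have hinj' : Function.Injective (algebraMap (MvPolynomial (Fin s) k) A) := hinj
  haveI : FaithfulSMul (MvPolynomial (Fin s) k) A :=
    (faithfulSMul_iff_algebraMap_injective _ _).2 hinj'
  rw [krullDim_integral (MvPolynomial (Fin s) k) A hinj',
    MvPolynomial.ringKrullDim_of_isNoetherianRing, ringKrullDim_eq_zero_of_field]
  have h1 := trdeg_add_eq k (MvPolynomial (Fin s) k) (A := A)
  rw [trdeg_eq_zero (R := MvPolynomial (Fin s) k) (A := A), h, add_zero,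
    MvPolynomial.trdeg_of_isDomain] at h1
  have h2 : s = n := by
    have : (s : Cardinal.{0}) = n := by simpa using h1
    exact_mod_cast this
  subst h2
  simp

theorem dim : DIM_S := by
  intro k L J Λ _ _ _ _ _ _ _ _ _ x g lam r hc
  have hxA : ∀ i, x i ∈ chartAlg k x r := fun i =>
    Algebra.subset_adjoin (Or.inl ⟨i, rfl⟩)
  have hrA : ∀ p : J × Λ, r p.1 p.2 ∈ chartAlg k x r := fun p =>
    Algebra.subset_adjoin (Or.inr ⟨p, rfl⟩)
  let x' : Fin 3 → chartAlg k x r := fun i => ⟨x i, hxA i⟩
  haveI : Algebra.FiniteType k (chartAlg k x r) := by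
    apply (Subalgebra.fg_iff_finiteType _).1
    refine Subalgebra.fg_def.2 ⟨_, ?_, rfl⟩
    exact (Set.finite_range _).union (Set.finite_range _)
  have hval : (chartAlg k x r).val ∘ x' = x := rfl
  have hind : AlgebraicIndependent k x' := by
    apply AlgebraicIndependent.of_comp (chartAlg k x r).val
    rw [hval]
    exact hc.alg
  have hg0 : ∀ j l, aeval x (g j l) ≠ 0 := by
    intro j l h0
    have h1 : g j l = 0 := by
      apply hc.alg
      simpa using h0
    have := hc.nsq {(j, l)} (Finset.singleton_nonempty _) 0 1 one_ne_zero
    apply this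
    simp [h1]
  have halg : ∀ z (hz : z ∈ chartAlg k x r),
      IsAlgebraic (Algebra.adjoin k (Set.range x')) (⟨z, hz⟩ : chartAlg k x r) := by
    intro z hz
    have key : (⟨z, hz⟩ : chartAlg k x r) ∈
        Subalgebra.algebraicClosure (Algebra.adjoin k (Set.range x')) (chartAlg k x r) := by
      induction hz using Algebra.adjoin_induction with
      | mem z hz =>
        rcases hz with ⟨i, rfl⟩ | ⟨p, rfl⟩
        · rw [Subalgebra.mem_algebraicClosure]
          exact isAlgebraic_algebraMap
            (⟨x' i, Algebra.subset_adjoin ⟨i, rfl⟩⟩ : Algebra.adjoin k (Set.range x'))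
        · rw [Subalgebra.mem_algebraicClosure]
          have hmem : ∀ q : MvPolynomial (Fin 3) k,
              aeval x' q ∈ Algebra.adjoin k (Set.range x') := by
            intro q
            rw [Algebra.adjoin_range_eq_range_aeval]
            exact ⟨q, rfl⟩
          have hco : ∀ q : MvPolynomial (Fin 3) k, ((aeval x' q : chartAlg k x r) : L) =
              aeval x q := by
            intro q
            have := MvPolynomial.aeval_unique ((chartAlg k x r).val.comp (aeval x'))
            have h2 := congrArg (fun f => f q) this
            simp only [AlgHom.comp_apply] at h2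
            rw [show ((chartAlg k x r).val (aeval x' q)) = ((aeval x' q : chartAlg k x r) : L)
              from rfl] at h2
            rw [h2]
            congr 2
            ext i
            simp [x']
          let a : Algebra.adjoin k (Set.range x') := ⟨_, hmem (g p.1 (lam p.1))⟩
          let b : Algebra.adjoin k (Set.range x') := ⟨_, hmem (g p.1 p.2)⟩
          have ha : a ≠ 0 := by
            intro h0
            apply hg0 p.1 (lam p.1)
            rw [← hco]
            have h3 : (aeval x' (g p.1 (lam p.1)) : chartAlg k x r) = 0 := congrArg Subtype.val h0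
            rw [h3]
            rfl
          refine ⟨Polynomial.C a * Polynomial.X ^ 2 - Polynomial.C b, ?_, ?_⟩
          · intro h0
            apply ha
            have := congrArg (fun q => Polynomial.coeff q 2) h0
            simpa [Polynomial.coeff_C] using this
          · rw [map_sub, map_mul, map_pow, Polynomial.aeval_C, Polynomial.aeval_X,
              Polynomial.aeval_C, sub_eq_zero]
            apply Subtype.ext
            have h3 := hc.sq p.1 p.2
            rw [← hco, ← hco] at h3
            rw [mul_comm] at h3
            exact h3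
      | algebraMap c =>
        rw [Subalgebra.mem_algebraicClosure]
        exact isAlgebraic_algebraMap
          (algebraMap k (Algebra.adjoin k (Set.range x')) c)
      | add y z hy hz h1 h2 => exact Subalgebra.add_mem _ h1 h2
      | mul y z hy hz h1 h2 => exact Subalgebra.mul_mem _ h1 h2
    exact key
  haveI : Algebra.IsAlgebraic (Algebra.adjoin k (Set.range x')) (chartAlg k x r) :=
    ⟨fun z => halg z.1 z.2⟩
  have h1 : Algebra.trdeg k (chartAlg k x r) ≤ 3 := by
    refine (Algebra.IsAlgebraic.trdeg_le_cardinalMk k (Set.range x')).trans ?_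
    refine Cardinal.mk_range_le.trans ?_
    simp
  have h2 : 3 ≤ Algebra.trdeg k (chartAlg k x r) := by
    have := hind.cardinalMk_le_trdeg
    simpa using this
  have h3 := krullDim_eq_trdeg k (chartAlg k x r) 3 (le_antisymm (by exact_mod_cast h1)
    (by exact_mod_cast h2))
  exact_mod_cast h3

end Pool.Agent.PI.FZ.H91
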