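import Pool.Agent.Lib.MP_43d240_ag.FZ.Iface

/-!
PROJECT PI, chapter F2b, module KUM: Kummer theory for square roots.
-/

namespace Pool.Agent.PI.FZ.H91

/-- The quadratic extension `F + F rho` inside `L`. -/
def quadExt {L : Type} [Field L] (F : Subfield L) (ρ : L) (h2 : ρ ^ 2 ∈ F) (hn : ρ ∉ F) :
    Subfield L where
  carrier := {z | ∃ a ∈ F, ∃ b ∈ F, z = a + b * ρ}
  mul_mem' := by
    rintro _ _ ⟨a, ha, b, hb, rfl⟩ ⟨c, hc, d, hd, rfl⟩
    refine ⟨a * c + b * d * ρ ^ 2, ?_, a * d + b * c, ?_, by ring⟩
    · exact F.add_mem (F.mul_mem ha hc) (F.mul_mem (F.mul_mem hb hd) h2)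
    · exact F.add_mem (F.mul_mem ha hd) (F.mul_mem hb hc)
  one_mem' := ⟨1, F.one_mem, 0, F.zero_mem, by ring⟩
  add_mem' := by
    rintro _ _ ⟨a, ha, b, hb, rfl⟩ ⟨c, hc, d, hd, rfl⟩
    exact ⟨a + c, F.add_mem ha hc, b + d, F.add_mem hb hd, by ring⟩
  zero_mem' := ⟨0, F.zero_mem, 0, F.zero_mem, by ring⟩
  neg_mem' := by
    rintro _ ⟨a, ha, b, hb, rfl⟩
    exact ⟨-a, F.neg_mem ha, -b, F.neg_mem hb, by ring⟩
  inv_mem' := by
    rintro _ ⟨a, ha, b, hb, rfl⟩
    by_cases hb0 : b = 0
    · subst hb0
      exact ⟨a⁻¹, F.inv_mem ha, 0, F.zero_mem, by simp⟩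
    · have hN : a ^ 2 - b ^ 2 * ρ ^ 2 ≠ 0 := by
        intro h
        have h' : (a - b * ρ) * (a + b * ρ) = 0 := by rw [← h]; ring
        rcases mul_eq_zero.1 h' with h1 | h1
        · apply hn
          have : ρ = a / b := by
            rw [eq_div_iff hb0]
            linear_combination -h1
          rw [this]
          exact F.div_mem ha hb
        · apply hn
          have : ρ = -a / b := by
            rw [eq_div_iff hb0]
            linear_combination h1
          rw [this]
          exact F.div_mem (F.neg_mem ha) hb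
      have hNF : a ^ 2 - b ^ 2 * ρ ^ 2 ∈ F :=
        F.sub_mem (F.pow_mem ha 2) (F.mul_mem (F.pow_mem hb 2) h2)
      refine ⟨a / (a ^ 2 - b ^ 2 * ρ ^ 2), F.div_mem ha hNF, -b / (a ^ 2 - b ^ 2 * ρ ^ 2),
        F.div_mem (F.neg_mem hb) hNF, ?_⟩
      apply inv_eq_of_mul_eq_one_right
      have e : (a + b * ρ) * (a / (a ^ 2 - b ^ 2 * ρ ^ 2) + -b / (a ^ 2 - b ^ 2 * ρ ^ 2) * ρ) =
          (a ^ 2 - b ^ 2 * ρ ^ 2) / (a ^ 2 - b ^ 2 * ρ ^ 2) := by ring
      rw [e, div_self hN]

theorem mem_quadExt {L : Type} [Field L] {F : Subfield L} {ρ : L} {h2 : ρ ^ 2 ∈ F}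
    {hn : ρ ∉ F} {z : L} : z ∈ quadExt F ρ h2 hn ↔ ∃ a ∈ F, ∃ b ∈ F, z = a + b * ρ := Iff.rfl

theorem kum : KUM_S := by
  intro L ι _ _ F h2 r s
  induction s using Finset.induction_on generalizing F with
  | empty =>
    intro _ _ c _ h w hw
    rw [Finset.subset_empty] at hw
    subst hw
    simpa using h
  | insert i s hi ih =>
    intro hsq hpr c hc hsum
    have hri2 : r i ^ 2 ∈ F := hsq i (Finset.mem_insert_self i s)
    have hri : r i ∉ F := by
      have := hpr {i} (by simp) (Finset.singleton_nonempty i)
      simpa using this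
    have hFle : ∀ a ∈ F, a ∈ quadExt F (r i) hri2 hri := fun a ha =>
      ⟨a, ha, 0, F.zero_mem, by ring⟩
    have hprF : ∀ w ⊆ s, (∏ j ∈ w, r j) ^ 2 ∈ F := by
      intro w hw
      rw [← Finset.prod_pow]
      exact F.prod_mem (fun j hj => hsq j (Finset.mem_insert_of_mem (hw hj)))
    have key := ih (quadExt F (r i) hri2 hri)
      (fun j hj => hFle _ (hsq j (Finset.mem_insert_of_mem hj))) (by
        intro w hw hne hmem
        obtain ⟨a, ha, b, hb, hab⟩ := hmem
        have h1 := hprF w hw
        rw [hab] at h1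
        have h3 : 2 * (a * b) * r i ∈ F := by
          have e : 2 * (a * b) * r i = (a + b * r i) ^ 2 - (a ^ 2 + b ^ 2 * r i ^ 2) := by ring
          rw [e]
          exact F.sub_mem h1 (F.add_mem (F.pow_mem ha 2) (F.mul_mem (F.pow_mem hb 2) hri2))
        by_cases hab0 : a * b = 0
        · rcases mul_eq_zero.1 hab0 with h0 | h0
          · have h4 := hpr (insert i w) (Finset.insert_subset_insert i hw)
              (Finset.insert_nonempty i w)
            rw [Finset.prod_insert (fun h => hi (hw h)), hab, h0] at h4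
            apply h4
            have e : r i * (0 + b * r i) = b * r i ^ 2 := by ring
            rw [e]
            exact F.mul_mem hb hri2
          · have h4 := hpr w (hw.trans (Finset.subset_insert i s)) hne
            rw [hab, h0] at h4
            apply h4
            simpa using ha
        · apply hri
          have hne2 : 2 * (a * b) ≠ 0 := mul_ne_zero h2 hab0
          have e : r i = 2 * (a * b) * r i / (2 * (a * b)) := by
            rw [mul_div_cancel_left₀ _ hne2]
          rw [e]
          have h2F : (2 : L) ∈ F := by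
            have : (2 : L) = 1 + 1 := by norm_num
            rw [this]
            exact F.add_mem F.one_mem F.one_mem
          exact F.div_mem h3 (F.mul_mem h2F (F.mul_mem ha hb)))
      (fun w => if w ⊆ s then c w + c (insert i w) * r i else 0) (by
        intro w
        split_ifs
        · exact ⟨c w, hc _, c (insert i w), hc _, rfl⟩
        · exact Subfield.zero_mem _) (by
        rw [Finset.sum_powerset_insert hi] at hsum
        rw [← hsum, ← Finset.sum_add_distrib]
        apply Finset.sum_congr rfl
        intro w hw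
        have hw' := Finset.mem_powerset.1 hw
        rw [if_pos hw', Finset.prod_insert (fun h => hi (hw' h))]
        ring)
    have key2 : ∀ w ⊆ s, c w = 0 ∧ c (insert i w) = 0 := by
      intro w hw
      have h3 := key w hw
      simp only [if_pos hw] at h3
      have h4 : c (insert i w) = 0 := by
        by_contra h0
        apply hri
        have e : r i = -c w / c (insert i w) := by
          rw [eq_div_iff h0]
          linear_combination h3
        rw [e]
        exact F.div_mem (F.neg_mem (hc _)) (hc _)
      rw [h4, zero_mul, add_zero] at h3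
      exact ⟨h3, h4⟩
    intro w hw
    by_cases hiw : i ∈ w
    · have h5 : w.erase i ⊆ s := by
        intro j hj
        rcases Finset.mem_insert.1 (hw (Finset.mem_of_mem_erase hj)) with h | h
        · exact absurd h (Finset.ne_of_mem_erase hj)
        · exact h
      have := (key2 _ h5).2
      rwa [Finset.insert_erase hiw] at this
    · have h5 : w ⊆ s := by
        intro j hj
        rcases Finset.mem_insert.1 (hw hj) with h | h
        · exact absurd (h ▸ hj) hiw
        · exact h
      exact (key2 _ h5).1

end Pool.Agent.PI.FZ.H91
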